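import Pool.Agent.S821.WinU
import Pool.Agent.Results.MP_ae0f86_nt.BoundedDegreeOneMotives

/-!
# Periods of 1-motives of several hyperelliptic curves at ALL coprime divisors of almost all integers, in growing degree

For polynomials `F_a`, `G_a` the primitives `Φ_(a,j)` of `x^j dx / (G_a √F_a)`, `j < deg F_a - 1 + deg G_a`, are integrals of the
three kinds on the curve `C_a : y² = F_a(x)`, with logarithmic poles over the zeros of `G_a`: periods of the 1-motives `M(x)`
defined by the point `(x, √F_a(x)) - ∞` of the generalised Jacobian of `C_a` (a non-split extension of the Jacobian by a torus in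
general).

We show: for almost all integers `m`, for ALL pairwise coprime divisors `s_1, …, s_l`, `t_1, …, t_k` of `m`, where `t_i ≥ ψ(m)` and
the `s_j` are of any size, the periods `Φ_(a,j)`, `log` of ALL the curves at the `t_i + θ_j` satisfy no nontrivial relation of
degree `≤ δ` over the field generated by a number field of degree `≤ δ`, by arbitrary complex numbers `w_1, …, w_q` (for instance
all the periods of the generalised Jacobians) and by the periods at the `s_i + θ_j`. Here `ψ` tends to infinity as slowly as we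
like, `δ + 2 = (log_2 min t_i) ^ (1 / C)` tends to infinity with the `t_i`, there is no bound for the heights of the coefficients,
and `k`, `l`, `q` may be any numbers up to a function `K(m)` which tends to infinity. The number of the exceptions `m ≤ N`, for
`t_i ≥ y` and the degree `δ`, is at most `C (δ + 2)^C y^(-1/(δ + 2)^C) N`, uniformly in `w`, `δ`, `y`, `N`; the same holds for the
prime factors up to `N^(1/(k + l))` of the values of any polynomial.

The starting theorem `BoundedDegreeOneMotives` bounds the number of the related tuples in cubes, for a fixed degree. This does not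
suffice here: the divisors of an integer are of very different sizes, and the bound `C T^(k - c)` does not exclude that all the
pairs `(t_1, t_2)` with `t_1 ≤ t_2^(1 - c)` are related.

Proof. For fixed small divisors `s` the numbers at the `s_i + θ_j` are additional constants; the exceptional integers with given
`s` are at most `C y^(-c) N / (s_1 ⋯ s_l)`, and the sum over all `s_i ≤ y` costs a power of `log y`; the divisors `s_i > y` can
be added to the `t_i`. For fixed constants the `t_i` are ordered by size; a related tuple has a first place where the numbers at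
`t_j` are related to those at the smaller `t_i` and to the constants. In a window of length `M ^ (1/(δ + 2)^C)` there is only a
bounded number of such `t_j` (windows of the starting library `Pool.Agent.R351.GD.S`; `Pool.Agent.S821.WinU`), and the sum of
`1 / (t_j ⋯ t_k)` over these minimal tuples is at most `C (δ + 2)^C y^(-c)` (`Pool.Agent.S821.Split`, `SplitM`, `Small`,
`SmallM`). The exceptions are summed over all degrees.
-/

set_option autoImplicit false

open Filter

namespace Pool.Agent.Results.MP_ae0f86_nt.CoprimeDivisors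

open Module
open Pool.Agent.N826.IT.Orb (AlmostAll)
open Pool.Agent.S821.Small (LawS PairwiseCoprime relK_move)
open Pool.Agent.R351.GD (RelK)
open Pool.Agent.Results.MP_ae0f86_nt.BoundedDegreeOneMotives (Idx Domain Primitives number)

/-- the numbers `Φ_(a,b)(t_i + θ_j)` and `log (t_i + θ_j)` -/
noncomputable def numbers {n : ℕ} {F G : Fin n → Polynomial ℤ} (Φ : Idx F G → ℂ → ℂ) {k r : ℕ} (θ : Fin r → ℕ)
    (t : Fin k → ℕ) (p : (Fin k × Fin r) × (Idx F G ⊕ Unit)) : ℂ :=
  number Φ ((t p.1.1 : ℂ) + θ p.1.2) p.2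

/-- A polynomial of total degree at most `δ` over some number field of degree at most `δ` vanishes at the numbers `w`, the
numbers at the `s_i + θ_j` and the numbers at the `t_i + θ_j`, but it does not vanish identically in the variables of the last
ones after the substitution of the numbers `w` and the numbers at the `s_i + θ_j` alone. -/
def RelatedOver {n : ℕ} {F G : Fin n → Polynomial ℤ} (Φ : Idx F G → ℂ → ℂ) {q l k r : ℕ} (θ : Fin r → ℕ) (δ : ℕ)
    (w : Fin q → ℂ) (s : Fin l → ℕ) (t : Fin k → ℕ) : Prop :=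
  ∃ K : IntermediateField ℚ ℂ, FiniteDimensional ℚ K ∧ finrank ℚ K ≤ δ ∧
    ∃ P : MvPolynomial ((Fin q ⊕ (Fin l × Fin r) × (Idx F G ⊕ Unit)) ⊕ (Fin k × Fin r) × (Idx F G ⊕ Unit)) K,
      P.totalDegree ≤ δ ∧ MvPolynomial.aeval (Sum.elim (Sum.elim w (numbers Φ θ s)) (numbers Φ θ t)) P = 0 ∧
      MvPolynomial.aeval (Sum.elim (fun o => MvPolynomial.C (Sum.elim w (numbers Φ θ s) o)) MvPolynomial.X) P ≠
        (0 : MvPolynomial ((Fin k × Fin r) × (Idx F G ⊕ Unit)) ℂ)

/-- positive integers are in the domain -/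
theorem mem_domain {u : ℂ} (hu : 1 / u ∈ Complex.slitPlane) (R : ℝ) {m : ℕ} (hm : ⌊|R|⌋₊ + 1 ≤ m) (j : ℕ) :
    (m : ℂ) + j ∈ Domain u R := by
  have h1 : |R| < m := (Nat.lt_floor_add_one |R|).trans_le (by exact_mod_cast hm)
  have h2 : (0 : ℝ) < ((m + j : ℕ) : ℝ) := by
    have : 0 < m + j := by omega
    exact_mod_cast this
  have h3 : ((m : ℂ) + j) = ((m + j : ℕ) : ℂ) := by push_cast; ring
  constructor
  · rw [h3, Complex.norm_natCast]
    push_cast
    have h4 := le_abs_self R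
    have h5 : (0 : ℝ) ≤ j := Nat.cast_nonneg j
    linarith
  · have h4 : ((m : ℂ) + j) / u = (((m + j : ℕ) : ℝ) : ℂ) * (1 / u) := by
      rw [h3]
      push_cast
      ring
    rw [h4, Complex.mem_slitPlane_iff, Complex.re_ofReal_mul, Complex.im_ofReal_mul]
    rw [Complex.mem_slitPlane_iff] at hu
    rcases hu with h5 | h5
    · exact Or.inl (mul_pos h2 h5)
    · exact Or.inr (mul_ne_zero h2.ne' h5)

/-- the law, polynomial in the degree -/
theorem law_mot {n : ℕ} (F G : Fin n → Polynomial ℤ)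
    (hsf : ∀ a, Squarefree ((F a * G a).map (Int.castRingHom ℚ))) (hodd : ∀ a, Odd (F a).natDegree)
    (hdeg : ∀ a, 3 ≤ (F a).natDegree + 2 * (G a).natDegree)
    (hpos : ∀ a, 0 < (F a).leadingCoeff ∧ 0 < (G a).leadingCoeff)
    (hdist : ∀ a b, a ≠ b → ∀ h c₁ c₂ : ℤ, c₁ ≠ 0 → c₂ ≠ 0 →
      Polynomial.C c₁ * F a ≠ Polynomial.C c₂ * (F b).comp (Polynomial.X + Polynomial.C h))
    (u : ℂ) (hu : 1 / u ∈ Complex.slitPlane) (R : ℝ) (S : Fin n → ℂ → ℂ) (Φ : Idx F G → ℂ → ℂ)
    (hΦ : Primitives F G u R S Φ) {r : ℕ} (θ : Fin r → ℕ) (hθ : Function.Injective θ) (l k q : ℕ) :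
    ∃ C : ℕ, 1 ≤ C ∧ ∀ (δ : ℕ) (w : Fin q → ℂ),
      LawS l k (fun s t => (∃ i, t i < ⌊|R|⌋₊ + 1) ∨ RelatedOver Φ θ δ w s t) (1 / ((δ : ℝ) + 2) ^ C)
        (C * ((δ : ℝ) + 2) ^ C) := by
  classical
  have hG : ∀ a, Pool.Agent.Y916.Sa.GoodP (F a) (G a) := by
    intro a
    have h := hsf a
    rw [Polynomial.map_mul, squarefree_mul_iff] at h
    exact ⟨h.2.1, hodd a, (hpos a).1, h.2.2, (hpos a).2, h.1.isCoprime, hdeg a⟩
  have hu0 : u ≠ 0 := by
    rintro rfl
    rw [div_zero] at hu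
    exact Complex.slitPlane_ne_zero hu rfl
  have hx : ∀ (x : ℂ) i, number Φ x i = Pool.Agent.Y916.Sl.xP F G Φ x i := by
    rintro x (p | w) <;> rfl
  obtain ⟨κ, -, hlink⟩ := Pool.Agent.Y916.Sl.linkS' Pool.Agent.Y916.Sl.tP Pool.Agent.Y916.Sl.tQ hG hu0
    (R := R) (S := S) (Φ := Φ) (fun x hx1 hx2 => hΦ x ⟨hx1, hx2⟩)
  obtain ⟨E₁, hE₁⟩ := hlink _ (Pool.Agent.Y916.Sl.kp κ) (by
    rintro _ ⟨p, rfl⟩
    exact ⟨Sum.inl p, rfl⟩) ⟨Sum.inr (), rfl⟩ 1
  obtain ⟨C, hC1, hC⟩ := Pool.Agent.S821.WinU.law_theta _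
    (Pool.Agent.R351.GD.inpE_s hG (fun a b hab h c₁ c₂ => hdist a b hab h c₁ c₂))
    (Pool.Agent.Y916.Sl.xP F G Φ) (Pool.Agent.Y916.Sl.DmS u R) (Pool.Agent.Y916.Sl.kp κ) _ E₁ hE₁ θ hθ (⌊|R|⌋₊ + 1)
    (fun m hm j => mem_domain hu R hm (θ j)) l k q
  refine ⟨C, hC1, fun δ w => (hC δ w).mono fun s t ht => ?_⟩
  rcases ht with ht | ht
  · exact Or.inl ht
  · right
    have h1 : RelK δ (Sum.elim w (numbers Φ θ s)) (numbers Φ θ t) := ht
    refine relK_move h1 _ _ (fun x => (x.1.1, (x.1.2, x.2))) ?_ (fun x => (hx _ _).symm) fun o => ?_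
    · rintro ⟨⟨i, j⟩, x⟩ ⟨⟨i', j'⟩, x'⟩ h
      have e1 : i = i' := congrArg Prod.fst h
      have e2 : j = j' := congrArg (fun z => z.2.1) h
      have e3 : x = x' := congrArg (fun z => z.2.2) h
      rw [e1, e2, e3]
    · rcases o with o | x
      · exact ⟨Sum.inl (Sum.inl (Sum.inl o)), rfl, fun _ h => by cases h⟩
      · exact ⟨Sum.inl (Sum.inr (x.1.1, (x.1.2, x.2))), (hx _ _).symm, fun _ h => by cases h⟩

/-- **All coprime divisors of almost all integers.** Let `F_a`, `G_a` be integral polynomials with positive leading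
coefficients such that `F_a G_a` is squarefree, `deg F_a` is odd, `deg F_a + 2 deg G_a ≥ 3` and no `F_a` is proportional to an
integral translate of another `F_b`, let `Φ` be primitives of the differentials `x^j dx / (G_a √F_a)` on a domain (the plane
without a disc and a ray which is not the positive real axis), and let `θ_1, …, θ_r` be distinct natural numbers. There is a
function `C(l, k, q)` with the following properties.

(1) For all `l`, `k`, `q`, `δ`, all `w ∈ ℂ^q` and all `y, N ≥ 1`: for all integers `m ≤ N` but at most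
`C (δ + 2)^C y^(-1/(δ + 2)^C) N`, for ALL pairwise coprime divisors `s_1, …, s_l`, `t_1, …, t_k` of `m` with `t_i ≥ y` there is no
relation of degree at most `δ` over a number field of degree at most `δ` between the numbers `w_j`, the numbers at the
`s_i + θ_j` and the numbers at the `t_i + θ_j` which is nontrivial in the last ones.

(2) For every integral polynomial `f ≠ 0` and `l`, `k`, `q` there is `C'` such that for all `δ`, `w`, `y, N ≥ 1`, for all
integers `m ≤ N` but at most `C' (δ + 2)^C y^(-1/(δ + 2)^C) N`, the same is true for all distinct prime factors `s_1, …, s_l`,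
`t_1, …, t_k` of `f(m)` with `s_j, t_i ≤ N^(1/(l + k))`, `t_i ≥ y`.

(3) Let `w_0, w_1, …` be any complex numbers. For every function `ψ` which tends to infinity there is a function `K` which tends
to infinity such that for almost all `m`, for all `l, k, q ≤ K(m)`, `k ≥ 1`, all `δ` and all pairwise coprime divisors
`s_1, …, s_l`, `t_1, …, t_k` of `m` with `t_i ≥ ψ(m)` and `t_i ≥ 2^((δ + 2)^C)` there is no relation as in (1) with the first `q`
numbers `w`. -/
theorem result {n : ℕ} (F G : Fin n → Polynomial ℤ)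
    (hsf : ∀ a, Squarefree ((F a * G a).map (Int.castRingHom ℚ))) (hodd : ∀ a, Odd (F a).natDegree)
    (hdeg : ∀ a, 3 ≤ (F a).natDegree + 2 * (G a).natDegree)
    (hpos : ∀ a, 0 < (F a).leadingCoeff ∧ 0 < (G a).leadingCoeff)
    (hdist : ∀ a b, a ≠ b → ∀ h c₁ c₂ : ℤ, c₁ ≠ 0 → c₂ ≠ 0 →
      Polynomial.C c₁ * F a ≠ Polynomial.C c₂ * (F b).comp (Polynomial.X + Polynomial.C h))
    (u : ℂ) (hu : 1 / u ∈ Complex.slitPlane) (R : ℝ) (S : Fin n → ℂ → ℂ) (Φ : Idx F G → ℂ → ℂ)
    (hΦ : Primitives F G u R S Φ) {r : ℕ} (θ : Fin r → ℕ) (hθ : Function.Injective θ) : ∃ C : ℕ → ℕ → ℕ → ℕ,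
    (∀ (l k q δ : ℕ) (w : Fin q → ℂ) (y N : ℕ), 1 ≤ y → 1 ≤ N →
        ({m : ℕ | 1 ≤ m ∧ m ≤ N ∧ ∃ (s : Fin l → ℕ) (t : Fin k → ℕ), (∀ i, s i ∣ m) ∧ (∀ i, t i ∣ m ∧ y ≤ t i) ∧
          PairwiseCoprime s t ∧ RelatedOver Φ θ δ w s t}.ncard : ℝ) ≤
          C l k q * ((δ : ℝ) + 2) ^ C l k q * (y : ℝ) ^ (-(1 / ((δ : ℝ) + 2) ^ C l k q)) * N) ∧
    (∀ f : Polynomial ℤ, f ≠ 0 → ∀ l k q : ℕ, ∃ C' : ℝ, ∀ (δ : ℕ) (w : Fin q → ℂ) (y N : ℕ), 1 ≤ y → 1 ≤ N →
        ({m : ℕ | 1 ≤ m ∧ m ≤ N ∧ ∃ (s : Fin l → ℕ) (t : Fin k → ℕ),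
          (∀ i, (s i).Prime ∧ (s i : ℤ) ∣ f.eval (m : ℤ) ∧ s i ^ (l + k) ≤ N) ∧
          (∀ i, (t i).Prime ∧ (t i : ℤ) ∣ f.eval (m : ℤ) ∧ y ≤ t i ∧ t i ^ (l + k) ≤ N) ∧ PairwiseCoprime s t ∧
          RelatedOver Φ θ δ w s t}.ncard : ℝ) ≤
          C' * ((δ : ℝ) + 2) ^ C l k q * (y : ℝ) ^ (-(1 / ((δ : ℝ) + 2) ^ C l k q)) * N) ∧
    (∀ (w : ℕ → ℂ) (ψ : ℕ → ℕ), Tendsto ψ atTop atTop →
      ∃ K : ℕ → ℕ, Tendsto K atTop atTop ∧ AlmostAll (fun m => ∀ l ≤ K m, ∀ k ≤ K m, 1 ≤ k → ∀ q ≤ K m, ∀ (δ : ℕ)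
        (s : Fin l → ℕ) (t : Fin k → ℕ), (∀ i, s i ∣ m) → (∀ i, t i ∣ m ∧ ψ m ≤ t i ∧ 2 ^ ((δ + 2) ^ C l k q) ≤ t i) →
          PairwiseCoprime s t → ¬ RelatedOver Φ θ δ (fun j : Fin q => w j) s t)) :=
  Pool.Agent.S821.Pack.pack (n₀ := ⌊|R|⌋₊ + 1) (fun l k q δ w s t => RelatedOver (l := l) (k := k) (q := q) Φ θ δ w s t)
    (law_mot F G hsf hodd hdeg hpos hdist u hu R S Φ hΦ θ hθ)

end Pool.Agent.Results.MP_ae0f86_nt.CoprimeDivisors
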