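import Pool.Agent.U725.MT.OneThree
import Pool.Agent.W170.Z3.Z

/-!
# The de Rham-Betti conjecture for the mixed Tate motives over `ℚ` with at most five consecutive weights

Let `M` be a mixed Tate motive over a number field. In suitable bases the torsor of its motivic periods is an algebraic
group `G = U ⋊ 𝔾_m ⊆ GL_B` over `ℚ` (`IsMixedTate`; `𝔾_m` acts by the weights `wt`), and the comparison isomorphism is
`c = exp(L) τ(2πi)` with `L` in the Lie algebra `𝔲` of `U`. Grothendieck's period conjecture for `M` says that no proper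
subvariety of `G` over `ℚ` contains `c`. Its weaker form, the de Rham-Betti conjecture, says that no proper subtorsor over
`ℚ` contains `c` (`x y⁻¹ z ∈ T` for all `x, y, z ∈ T`): all tensors in all tensor spaces of `M` which are rational in the de
Rham and in the Betti realization, and all subspaces with this property, are motivic.

**Theorem.** Assume that `𝔲` is spanned, modulo commutators, by rational elements `N_j` of degree `1` and one rational
element `M` of degree `3`, and that `L = ∑ ℓ_j N_j + (ζ(3) + r (2πi)^3) M` modulo commutators, where `r` is rational and the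
`ℓ_j` are logarithms of multiplicatively independent algebraic numbers. Then the smallest `ℚ`-subtorsor of `GL_B` which
contains `c` is `G`.

The condition is satisfied for **all mixed Tate motives over `ℚ` with at most five consecutive weights** (the graded pieces
are sums of `ℚ(a), ℚ(a+1), …, ℚ(a+4)`; the motive may be ramified at any primes): `𝔲` is a quotient of the Lie algebra of
the motivic Galois group of the category `MT(ℚ)`, which is free, with generators dual to
`Ext¹(ℚ(0), ℚ(n)) = K_(2n-1)(ℚ) ⊗ ℚ`. This is `ℚ^× ⊗ ℚ` for `n = 1` (Kummer motives, with the periods `log p`), it is of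
dimension one for `n = 3` (with the period `ζ(3)`) and it vanishes for `n = 2` and `n = 4`. The degrees `≥ 5` do not
occur in `𝔲`, if there are at most five weights. So the theorem proves the de Rham-Betti conjecture for all these
motives. Their periods include the values of all multiple polylogarithms of weight at most four
`Li_(n_1, …, n_k)(x_1, …, x_k)`, `n_1 + … + n_k ≤ 4`, at all rational points `x`, and nothing is assumed on these numbers:
all the coordinates of `L` in the commutators are arbitrary complex numbers here. More generally the theorem applies to the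
mixed Tate motives over number fields which are generated by these motives over `ℚ` and by iterated extensions of Kummer
motives.

`MP_1eadae_ag.GeneratedInDegreeOne` is on groups which are generated in degree one (over all fields `K` of algebraic
numbers), `MP_e54452_nt.IrrationalityCriterion` is the equivalence with the irrationality of the odd zeta values for the
motives over `ℤ`.

## Proof

Let `T` be a `ℚ`-subtorsor with `c ∈ T`. By the criterion `crit` in `Pool/Agent/U725/MT` `G ⊆ T` if there is no linear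
form `f ≠ 0` over `ℚ` on `𝔲 / [𝔲, 𝔲]`, homogeneous of a degree `d`, with `f(L) ∈ ℚ + ℚ (2πi)^d`. Here only `d = 1` and
`d = 3` are possible. For `d = 1` one has `f(L) = ∑ f(N_j) ℓ_j` and `f = 0` by the theorem of Baker (for rational
coefficients and algebraic numbers `exp ℓ_j`; for logarithms of rational numbers Lindemann's theorem suffices). For `d = 3`
one has `f(L) = f(M) (ζ(3) + r (2πi)^3)`, and `f(M) = 0` since `ζ(3)` is irrational (Apéry; here by the bound for the
irrationality exponent `Pool.Agent.W170.Z3.Z_main` of the starting library).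
-/

set_option autoImplicit false

open Matrix

open scoped Nat

namespace Pool.Agent.Results.MP_ae0f86_nt.FiveWeights

/-- `T` is (the set of complex points of) a `K`-subtorsor of `GL_B`: it is closed under `x y⁻¹ z`, and it is defined in
`GL_B` by polynomials with coefficients in `K`. -/
def IsSubtorsor (K : Subfield ℂ) {B : Type} [Fintype B] [DecidableEq B] (T : Set (Matrix B B ℂ)) : Prop :=
  (∀ x ∈ T, ∀ y ∈ T, ∀ z ∈ T, x * y⁻¹ * z ∈ T) ∧ ∃ J : Set (MvPolynomial (B × B) K), ∀ x : Matrix B B ℂ, x ∈ T ↔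
    IsUnit x ∧ ∀ p ∈ J, MvPolynomial.eval (fun b => x b.1 b.2) (MvPolynomial.map (algebraMap K ℂ) p) = 0

/-- the field of the rational numbers, as a subfield of `ℂ` -/
noncomputable def QQ : Subfield ℂ := (algebraMap ℚ ℂ).fieldRange

/-- `Ω` is the smallest `K`-subtorsor which contains `c` -/
def IsOmega (K : Subfield ℂ) {B : Type} [Fintype B] [DecidableEq B] (c : Matrix B B ℂ) (Ω : Set (Matrix B B ℂ)) : Prop :=
  IsSubtorsor K Ω ∧ c ∈ Ω ∧ ∀ T : Set (Matrix B B ℂ), IsSubtorsor K T → c ∈ T → Ω ⊆ T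

/-- the numbers `α j` are multiplicatively independent -/
def MulIndep {J : Type} [Fintype J] (α : J → ℂ) : Prop := ∀ u : J → ℤ, ∏ j, α j ^ u j = 1 → u = 0

/-- the action of the multiplicative group: the diagonal matrix of the `l ^ wt b` -/
def torus {B : Type} [DecidableEq B] (wt : B → ℕ) (l : ℂ) : Matrix B B ℂ := Matrix.diagonal fun b => l ^ wt b

/-- `X` maps to strictly larger weights -/
def Strict {B : Type} (wt : B → ℕ) (X : Matrix B B ℂ) : Prop := ∀ b b', X b b' ≠ 0 → wt b' < wt b

/-- `G` is an algebraic group over `ℚ` which is the semidirect product of the torus and of a group of unipotent matrices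
which are triangular with respect to the weights -/
structure IsMixedTate {B : Type} [Fintype B] [DecidableEq B] (wt : B → ℕ) (G : Set (Matrix B B ℂ)) : Prop where
  algebraic : IsSubtorsor QQ G
  torus_mem : ∀ l : ℂ, l ≠ 0 → torus wt l ∈ G
  triangular : ∀ x ∈ G, ∃ l : ℂ, l ≠ 0 ∧ Strict wt (x * torus wt l⁻¹ - 1)

/-- the Lie algebra of the unipotent part of `G` -/
def lieU {B : Type} [Fintype B] [DecidableEq B] (wt : B → ℕ) (G : Set (Matrix B B ℂ)) : Set (Matrix B B ℂ) :=
  {X | Strict wt X ∧ IsNilpotent.exp X ∈ G}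

/-- the space spanned by the commutators of elements of the Lie algebra -/
def commutators {B : Type} [Fintype B] [DecidableEq B] (wt : B → ℕ) (G : Set (Matrix B B ℂ)) :
    Submodule ℂ (Matrix B B ℂ) :=
  Submodule.span ℂ {Z | ∃ X ∈ lieU wt G, ∃ Y ∈ lieU wt G, Z = X * Y - Y * X}

/-- a rational matrix as a complex matrix -/
def toC {B : Type} (N : Matrix B B ℚ) : Matrix B B ℂ := N.map fun q => (q : ℂ)

open Pool.Agent.U725.MT Pool.Agent.Y123.ST

section Aux

variable {B : Type} [Fintype B] [DecidableEq B] {wt : B → ℕ} {G : Set (Matrix B B ℂ)}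

theorem QQ_le (K : Subfield ℂ) : QQ ≤ K := by
  rintro _ ⟨q, rfl⟩
  exact SubfieldClass.ratCast_mem K q

theorem toMt (hG : IsMixedTate wt G) {K : Subfield ℂ} (hK : ∀ x ∈ K, IsAlgebraic ℚ x) : Mt K wt G :=
  Mt.of_tri hK (sub_mono (QQ_le K) (subT_iff.1 hG.algebraic)) hG.torus_mem hG.triangular

theorem mem_lieU (hG : IsMixedTate wt G) {K : Subfield ℂ} (hK : ∀ x ∈ K, IsAlgebraic ℚ x) {X : Matrix B B ℂ} :
    X ∈ lieU wt G ↔ fl X ∈ UU wt G :=
  ⟨fun h => (toMt hG hK).log_mem h.1 h.2, fun h => ⟨h.1, (toMt hG hK).exp_mem h⟩⟩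

/-- matrices as functions -/
def flL : Matrix B B ℂ →ₗ[ℂ] (B × B → ℂ) where
  toFun := fl
  map_add' := fl_add
  map_smul' := fl_smul

theorem mem_comm (hG : IsMixedTate wt G) {K : Subfield ℂ} (hK : ∀ x ∈ K, IsAlgebraic ℚ x) {Z : Matrix B B ℂ} :
    Z ∈ commutators wt G ↔ fl Z ∈ CC wt G := by
  have h1 : CC wt G = (commutators wt G).map flL := by
    unfold CC commutators
    rw [Submodule.map_span]
    congr 1
    ext w
    constructor
    · rintro ⟨X, Y, hX, hY, rfl⟩
      exact ⟨_, ⟨X, (mem_lieU hG hK).2 hX, Y, (mem_lieU hG hK).2 hY, rfl⟩, rfl⟩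
    · rintro ⟨_, ⟨X, hX, Y, hY, rfl⟩, rfl⟩
      exact ⟨X, Y, (mem_lieU hG hK).1 hX, (mem_lieU hG hK).1 hY, rfl⟩
  rw [h1]
  constructor
  · exact fun h => ⟨Z, h, rfl⟩
  · rintro ⟨Z', h2, h3⟩
    have h4 : Z' = Z := by
      have := congrArg um h3
      exact this
    rwa [← h4]

end Aux

/-- `ζ(3)` is irrational. -/
theorem zeta_three (q : ℚ) : riemannZeta 3 ≠ (q : ℂ) := by
  intro h
  obtain ⟨c, hc, hZ⟩ : ∃ c : ℝ, 0 < c ∧ ∀ (p : ℤ) (q : ℕ), 0 < q →
      c / (q : ℝ) ^ ((542 : ℝ) / 100) ≤ |(∑' n : ℕ, 1 / ((n : ℝ) + 1) ^ 3) - (p : ℝ) / q| :=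
    Pool.Agent.W170.Z3.Z_main
  have h1 := zeta_nat_eq_tsum_of_gt_one (k := 3) (by norm_num)
  have h2 : (riemannZeta 3) = ((∑' n : ℕ, 1 / ((n : ℝ) + 1) ^ 3 : ℝ) : ℂ) := by
    have h3 : Summable fun n : ℕ => 1 / (n : ℂ) ^ 3 := by
      have h4 : Summable fun n : ℕ => 1 / (n : ℝ) ^ 3 := Real.summable_one_div_nat_pow.2 (by norm_num)
      have h5 := Complex.ofRealCLM.summable h4
      refine h5.congr fun n => ?_
      simp
    have h6 : riemannZeta 3 = ∑' n : ℕ, 1 / (n : ℂ) ^ 3 := by
      simpa using h1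
    rw [h6, h3.tsum_eq_zero_add]
    push_cast
    simp
  have h7 : (∑' n : ℕ, 1 / ((n : ℝ) + 1) ^ 3 : ℝ) = ((q : ℚ) : ℝ) := by
    rw [h2] at h
    exact_mod_cast h
  have h8 := hZ q.num q.den q.pos
  rw [h7, Rat.cast_def, sub_self, abs_zero] at h8
  have h9 : 0 < c / (q.den : ℝ) ^ ((542 : ℝ) / 100) :=
    div_pos hc (Real.rpow_pos_of_pos (by exact_mod_cast q.pos) _)
  exact absurd h8 (not_le.2 h9)

theorem zeta_three_ne (r : ℚ) : ∀ a ∈ QQ, ∀ b ∈ QQ,
    riemannZeta 3 + (r : ℂ) * (2 * Real.pi * Complex.I) ^ 3 ≠ a + b * (2 * Real.pi * Complex.I) ^ 3 := by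
  rintro _ ⟨a, rfl⟩ _ ⟨b, rfl⟩ h
  have h3 : (2 * Real.pi * Complex.I : ℂ) ^ 3 = ((-(2 * Real.pi) ^ 3 : ℝ) : ℂ) * Complex.I := by
    rw [mul_pow, pow_succ Complex.I, Complex.I_sq]
    push_cast
    ring
  have h5 : (algebraMap ℚ ℂ) b = ((b : ℝ) : ℂ) := by simp
  have h6 : (algebraMap ℚ ℂ) a = ((a : ℝ) : ℂ) := by simp
  have h7 : riemannZeta 3 = ((a : ℝ) : ℂ) + (((b - r : ℚ) : ℝ) : ℂ) * (((-(2 * Real.pi) ^ 3 : ℝ) : ℂ) * Complex.I) := by
    rw [h3, h5, h6] at h
    push_cast at h ⊢
    linear_combination h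
  have h8 : (riemannZeta 3).im = 0 := by
    have h9 : riemannZeta 3 = ((∑' n : ℕ, 1 / ((n : ℝ)) ^ 3 : ℝ) : ℂ) := by
      have h10 := zeta_nat_eq_tsum_of_gt_one (k := 3) (by norm_num)
      push_cast
      simpa using h10
    rw [h9, Complex.ofReal_im]
  have h11 : riemannZeta 3 = ((a : ℝ) : ℂ) := by
    apply Complex.ext
    · have h12 := congrArg Complex.re h7
      rw [Complex.add_re, Complex.ofReal_re, Complex.re_ofReal_mul, Complex.re_ofReal_mul, Complex.I_re, mul_zero,
        mul_zero, add_zero] at h12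
      rw [h12, Complex.ofReal_re]
    · rw [h8, Complex.ofReal_im]
  exact zeta_three a (by rw [h11]; push_cast; rfl)

/-- **Main result.** -/
theorem result {B : Type} [Fintype B] [DecidableEq B] (wt : B → ℕ) (G : Set (Matrix B B ℂ)) (hG : IsMixedTate wt G)
    -- the Lie algebra is generated in degree one and by one element of degree three
    {J : Type} [Fintype J] (N : J → Matrix B B ℚ) (hN : ∀ j b b', N j b b' ≠ 0 → wt b = wt b' + 1)
    (M : Matrix B B ℚ) (hM : ∀ b b', M b b' ≠ 0 → wt b = wt b' + 3)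
    (hspan : ∀ X ∈ lieU wt G, ∃ (x : J → ℂ) (y : ℂ), X - (∑ j, x j • toC (N j) + y • toC M) ∈ commutators wt G)
    -- the period matrix, logarithms of algebraic numbers, and `ζ(3)`
    (L : Matrix B B ℂ) (ℓ : J → ℂ) (r : ℚ) (hL : L ∈ lieU wt G)
    (hLz : L - (∑ j, ℓ j • toC (N j) + (riemannZeta 3 + r * (2 * Real.pi * Complex.I) ^ 3) • toC M) ∈
      commutators wt G)
    (halg : ∀ j, IsAlgebraic ℚ (Complex.exp (ℓ j))) (hind : MulIndep fun j => Complex.exp (ℓ j)) :
    IsOmega QQ (IsNilpotent.exp L * torus wt (2 * Real.pi * Complex.I)) G := by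
  classical
  have hQ : ∀ x ∈ QQ, IsAlgebraic ℚ x := by
    rintro _ ⟨q, rfl⟩
    exact isAlgebraic_algebraMap q
  have hMt : Mt QQ wt G := toMt hG hQ
  have hLU : fl L ∈ UU wt G := (mem_lieU hG hQ).1 hL
  refine ⟨subT_iff.2 hMt.hG, hMt.mul_mem hL.2 (hG.torus_mem _ Complex.two_pi_I_ne_zero), fun T hT hc => ?_⟩
  refine hMt.oneMore' (fun j => toC (N j)) (fun j b b' hb => hN j b b' fun h0 => hb ?_)
    (fun j b b' => SubfieldClass.ratCast_mem QQ (N j b b')) 3 (by norm_num) (toC M)
    (fun b b' hb => hM b b' fun h0 => hb ?_) (fun b b' => SubfieldClass.ratCast_mem QQ (M b b')) (fun X hX => ?_) hLU ℓ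
    halg hind _ (zeta_three_ne r) ((mem_comm hG hQ).1 hLz) (subT_iff.1 hT) hc
  · change ((N j b b' : ℚ) : ℂ) = 0
    rw [h0, Rat.cast_zero]
  · change ((M b b' : ℚ) : ℂ) = 0
    rw [h0, Rat.cast_zero]
  · obtain ⟨x, y, hx⟩ := hspan X ((mem_lieU hG hQ).2 hX)
    exact ⟨x, y, (mem_comm hG hQ).1 hx⟩

end Pool.Agent.Results.MP_ae0f86_nt.FiveWeights
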