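import Pool.Agent.U979.HR.Herm

set_option autoImplicit false

/-!
# Period matrices of Kummer motives of the first rank that is not known to be impossible

The periods of the Kummer motives `[ℤ^n → G_m^m]` over `ℚ̄` are `2 π i` and the entries of matrices `M` of
logarithms of algebraic numbers.  Q1 for them says that logarithms which are linearly independent
over `ℚ` are algebraically independent.  In particular there is no `m × n` matrix `M` of logarithms of rank
smaller than `min(m, n)` with `w M v ≠ 0` for all nonzero rational vectors `w`, `v`.  The theorem of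
Waldschmidt and Masser says that the rank of a matrix without rational zeros is at least
`m n / (m + n)`; we consider the matrices for which the rank is equal to this number `r`, and more
general matrices whose kernel satisfies a reality condition.

Let `r (m + n) = m n`, `r ≥ 1`, and let `M` have rank at most `r` and no rational zero.

1. Every vector of logarithms of algebraic numbers in the row space of `M` is a rational combination
   of the rows.
2. If `N` is another such matrix with the same kernel then `N = A M` with `A ∈ GL_m(ℚ)`.
3. If the kernel is stable under complex conjugation, then `ℚ^m` is spanned by vectors `w` such that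
   `w M` is real or purely imaginary.
4. If also the kernel of the transpose is stable under conjugation, `M` is real or purely imaginary.
5. For `m = n`: if the kernel of `M` is contained in the kernel of the transpose, then `P M` is symmetric
   for some `P ∈ GL_n(ℚ)`; if the complex conjugates of the vectors in the kernel of `M` are in the
   kernel of the transpose, then `P M` is Hermitian or skew-Hermitian for some `P ∈ GL_n(ℚ)`.

For matrices `M` of any rank such that the `2 m n` numbers `M i j` and their complex conjugates are linearly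
independent over `ℚ`:

6. If the kernel is stable under complex conjugation, the rank is at least `2 m n / (2 m + n)`.
7. If `m = n` and the complex conjugates of the vectors in the kernel are in the kernel of the transpose,
   the rank is at least `2 n / 3`.

Proof.  1. is the linear subgroup theorem (of the library) for the matrix with one more row: it gives
rational zeros of combinations of this row with rows of `M`; the rational vectors for which this
happens are counted (`HR.sat`).  The complex conjugate of `M` in 3., and the (conjugate) transpose in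
5., is a matrix of logarithms with rows in the row space of `M`, hence `A M` with a rational matrix `A`,
and `1 + A`, `1 - A` give the result, since there are no rational zeros.  6. and 7. are the theorem of
Waldschmidt and Masser for the matrix formed by the rows of `M` and of its complex conjugate (or its
conjugate transpose), which has the same rank as `M`.
-/

namespace Pool.Agent.Results.MP_ae0f86_nt.KummerExtremalRank

open Pool.Agent.U979.HR ComplexConjugate
open Pool.Agent.H301R2.SSE (Lg)

/-- The entries of `M` are logarithms of algebraic numbers. -/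
def IsLogMatrix {m n : ℕ} (M : Matrix (Fin m) (Fin n) ℂ) : Prop :=
  ∀ i j, IsAlgebraic ℚ (Complex.exp (M i j))

/-- `w M v ≠ 0` for all nonzero rational vectors `w`, `v`. -/
def NoRationalZero {m n : ℕ} (M : Matrix (Fin m) (Fin n) ℂ) : Prop :=
  ∀ (w : Fin m → ℚ) (v : Fin n → ℚ), w ≠ 0 → v ≠ 0 → ∑ i, ∑ j, (w i : ℂ) * M i j * (v j : ℂ) ≠ 0

/-- `M` is a matrix of logarithms of algebraic numbers without rational zeros, of rank at most
`r = m n / (m + n) ≥ 1`. -/
def IsExtremal {m n : ℕ} (r : ℕ) (M : Matrix (Fin m) (Fin n) ℂ) : Prop :=
  1 ≤ r ∧ r * (m + n) = m * n ∧ IsLogMatrix M ∧ NoRationalZero M ∧ M.rank ≤ r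

/-- The kernel `{k : M k = 0}` is stable under complex conjugation. -/
def HasRealKernel {m n : ℕ} (M : Matrix (Fin m) (Fin n) ℂ) : Prop :=
  ∀ k : Fin n → ℂ, M.mulVec k = 0 → M.mulVec (fun j => conj (k j)) = 0

/-- Complex conjugation maps the kernel of `M` to the kernel of the transpose of `M`. -/
def HasHermitianKernel {n : ℕ} (M : Matrix (Fin n) (Fin n) ℂ) : Prop :=
  ∀ k : Fin n → ℂ, M.mulVec k = 0 → M.transpose.mulVec (fun j => conj (k j)) = 0

/-- The `2 m n` numbers `M i j` and their complex conjugates are linearly independent over `ℚ`. -/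
def ConjugatesIndependent {m n : ℕ} (M : Matrix (Fin m) (Fin n) ℂ) : Prop :=
  LinearIndependent ℚ (Sum.elim (fun q : Fin m × Fin n => M q.1 q.2)
    (fun q : Fin m × Fin n => conj (M q.1 q.2)))

theorem result :
    (∀ (r m n : ℕ) (M : Matrix (Fin m) (Fin n) ℂ), IsExtremal r M →
      (∀ x : Fin n → ℂ, (∀ j, IsAlgebraic ℚ (Complex.exp (x j))) →
        (∀ k : Fin n → ℂ, M.mulVec k = 0 → ∑ j, x j * k j = 0) →
        ∃ w : Fin m → ℚ, ∀ j, x j = ∑ i, (w i : ℂ) * M i j) ∧
      (∀ N : Matrix (Fin m) (Fin n) ℂ, IsExtremal r N →
        (∀ k : Fin n → ℂ, M.mulVec k = 0 ↔ N.mulVec k = 0) →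
        ∃ A : Matrix (Fin m) (Fin m) ℚ, A.det ≠ 0 ∧ N = A.map (fun q => (q : ℂ)) * M) ∧
      (HasRealKernel M → Submodule.span ℚ {w : Fin m → ℚ |
        (∀ j, (∑ i, (w i : ℂ) * M i j).im = 0) ∨ ∀ j, (∑ i, (w i : ℂ) * M i j).re = 0} = ⊤) ∧
      (HasRealKernel M → HasRealKernel M.transpose →
        (∀ i j, (M i j).im = 0) ∨ ∀ i j, (M i j).re = 0)) ∧
    (∀ (r n : ℕ) (M : Matrix (Fin n) (Fin n) ℂ), IsExtremal r M →
      ((∀ k : Fin n → ℂ, M.mulVec k = 0 → M.transpose.mulVec k = 0) →
        ∃ P : Matrix (Fin n) (Fin n) ℚ, P.det ≠ 0 ∧ (P.map (fun q => (q : ℂ)) * M).IsSymm) ∧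
      (HasHermitianKernel M → ∃ P : Matrix (Fin n) (Fin n) ℚ, P.det ≠ 0 ∧
        ((P.map (fun q => (q : ℂ)) * M).IsHermitian ∨
          (P.map (fun q => (q : ℂ)) * M).conjTranspose = -(P.map (fun q => (q : ℂ)) * M)))) ∧
    (∀ (m n : ℕ) (M : Matrix (Fin m) (Fin n) ℂ), IsLogMatrix M → ConjugatesIndependent M →
      HasRealKernel M → 2 * m * n ≤ M.rank * (2 * m + n)) ∧
    (∀ (n : ℕ) (M : Matrix (Fin n) (Fin n) ℂ), IsLogMatrix M → ConjugatesIndependent M →
      HasHermitianKernel M → 2 * n ≤ 3 * M.rank) := by
  refine ⟨?_, ?_, ?_, ?_⟩
  · rintro r m n M ⟨hr, hmn, hM, hz, hrk⟩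
    refine ⟨?_, ?_, ?_, ?_⟩
    · intro x hx hker
      exact saturated emb_complex hr hmn M hM hrk hz x hx hker
    · rintro N ⟨-, -, hN, hz', hrk'⟩ hker
      exact rigid_mat emb_complex hr hmn M N hM hN hrk hrk' hz hz' hker
    · intro hR
      exact real_rows hr hmn hM hrk hz hR
    · intro hR hR'
      exact both hr hmn hM hrk hz hR hR'
  · rintro r n M ⟨hr, hn, hM, hz, hrk⟩
    rcases Nat.eq_zero_or_pos n with h0 | hn0
    · subst h0
      exact ⟨fun _ => ⟨1, by simp, Subsingleton.elim _ _⟩,
        fun _ => ⟨1, by simp, Or.inl (Subsingleton.elim _ _)⟩⟩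
    refine ⟨?_, ?_⟩
    · intro hker
      rcases dagger emb_complex hr hn M hM hrk hz (RingHom.id ℂ) (fun x => rfl)
        (fun x hx => hx) (fun k hk => hker k hk) with ⟨P, hP, h⟩ | h
      · refine ⟨P, hP, ?_⟩
        rw [h]
        ext i j
        simp only [Matrix.transpose_apply, Matrix.add_apply, Matrix.map_apply, RingHom.id_apply]
        ring
      · exfalso
        refine hz (fun _ => 1) (fun _ => 1) (fun h0 => one_ne_zero (congrFun h0 ⟨0, hn0⟩))
          (fun h0 => one_ne_zero (congrFun h0 ⟨0, hn0⟩)) ?_
        have h1 : ∀ i j, M j i = - M i j := fun i j => by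
          have := congrFun (congrFun h i) j
          simpa using this
        have h2 : ∑ i, ∑ j, (((1 : ℚ) : ℂ)) * M i j * ((1 : ℚ) : ℂ) =
            - ∑ i, ∑ j, (((1 : ℚ) : ℂ)) * M i j * ((1 : ℚ) : ℂ) := by
          conv_lhs => rw [Finset.sum_comm]
          rw [← Finset.sum_neg_distrib]
          refine Finset.sum_congr rfl fun i _ => ?_
          rw [← Finset.sum_neg_distrib]
          refine Finset.sum_congr rfl fun j _ => ?_
          rw [h1 i j]
          ring
        have h3 := add_eq_zero_iff_eq_neg.2 h2
        rw [← two_mul] at h3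
        exact (mul_eq_zero.1 h3).resolve_left two_ne_zero
    · intro hker
      have hk : ∀ k : Fin n → ℂ, M.mulVec k = 0 →
          (M.transpose.map (starRingEnd ℂ)).mulVec k = 0 := by
        intro k hk
        have h1 := hker k hk
        funext i
        have h2 := congrArg (starRingEnd ℂ) (congrFun h1 i)
        simp only [Matrix.mulVec, dotProduct, Pi.zero_apply, map_zero, map_sum, map_mul,
          Complex.conj_conj, Matrix.map_apply] at h2 ⊢
        exact h2
      rcases dagger emb_complex hr hn M hM hrk hz (starRingEnd ℂ) Complex.conj_conj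
        (fun x hx => conj_log hx) hk with ⟨P, hP, h⟩ | h
      · refine ⟨P, hP, Or.inl ?_⟩
        rw [h]
        ext i j
        simp only [Matrix.conjTranspose_apply, Matrix.transpose_apply, Matrix.add_apply,
          Matrix.map_apply, RCLike.star_def, map_add, Complex.conj_conj]
        ring
      · refine ⟨1, by simp, Or.inr ?_⟩
        have h0 : (1 : Matrix (Fin n) (Fin n) ℚ).map (fun q => (q : ℂ)) = 1 := by
          ext i j
          rw [Matrix.map_apply]
          by_cases h : i = j
          · subst h
            simp
          · rw [Matrix.one_apply_ne h, Matrix.one_apply_ne h, Rat.cast_zero]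
        rw [h0, Matrix.one_mul, ← h]
        rfl
  · intro m n M hM hind hR
    have h1 := stack_indep (M := M) (N := M.map conj) hM (fun i j => conj_log (hM i j))
      (fun k hk => rk_conj hR hk) hind
    have e1 : (m + m) * n = 2 * m * n := by ring
    have e2 : m + m + n = 2 * m + n := by ring
    rw [e1, e2] at h1
    exact h1
  · intro n M hM hind hker
    rcases Nat.eq_zero_or_pos n with h0 | h0
    · subst h0
      simp
    have hk : ∀ k : Fin n → ℂ, M.mulVec k = 0 →
        (M.transpose.map (starRingEnd ℂ)).mulVec k = 0 := by
      intro k hk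
      have h1 := hker k hk
      funext i
      have h2 := congrArg (starRingEnd ℂ) (congrFun h1 i)
      simp only [Matrix.mulVec, dotProduct, Pi.zero_apply, map_zero, map_sum, map_mul,
        Complex.conj_conj, Matrix.map_apply] at h2 ⊢
      exact h2
    have hind' : LinearIndependent ℚ (Sum.elim (fun q : Fin n × Fin n => M q.1 q.2)
        (fun q : Fin n × Fin n => (M.transpose.map (starRingEnd ℂ)) q.1 q.2)) := by
      have h1 := (linearIndependent_equiv (Equiv.sumCongr (Equiv.refl (Fin n × Fin n))
        (Equiv.prodComm (Fin n) (Fin n)))).2 hind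
      convert h1 using 1
      funext q
      rcases q with q | q <;> rfl
    have h1 := stack_indep (M := M) (N := M.transpose.map (starRingEnd ℂ)) hM
      (fun i j => conj_log (hM j i)) hk hind'
    have e1 : (n + n) * n = n * (2 * n) := by ring
    have e2 : M.rank * (n + n + n) = n * (3 * M.rank) := by ring
    rw [e1, e2] at h1
    exact Nat.le_of_mul_le_mul_left h1 h0

end Pool.Agent.Results.MP_ae0f86_nt.KummerExtremalRank
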