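import Pool.Agent.U400.RF.OnePf

set_option autoImplicit false

/-!
# 1-motives over abelian varieties of rank two over CM fields, in terms of torsors

Let `A` be an abelian variety over the field `ℚ̄` of algebraic numbers, with a polarization `φ`. Let
`P_i = exp(u_i)` and `Q_l = φ(exp(v_l))` be algebraic points of `A` and of the dual abelian variety,
`G_Q` the extension of `A` by `G_m^s` given by the `Q_l`, and `M = [ℤ^n → G_Q]` a 1-motive over `ℚ̄`
with the images `e_i ↦ R_i` above `P_i`. The periods of `M` are `2 π i`, the periods and
quasi-periods of `A`, the abelian integrals `u_i` and the integrals of the second kind `h_k(u_i)`,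
the periods of the third kind `∑ k, (h_k(v_l) λ_k - v_lk η_k)`, and the integrals of the third kind
`ℓ_il`. The points `R_i` are algebraic, and this means for the logarithms `ℓ_il` that

  `exp(ℓ_il) = q_il · θ(u_i - v_l) / (θ(u_i) θ(-v_l)) · exp(∑ k, h_k(v_l) u_ik)`, `q_il` algebraic:

the function `z ↦ θ(z - v) / (θ(z) θ(-v)) · exp(∑ k, h_k(v) z_k)` is the pullback of a rational
section, over `ℚ̄`, of the extension of `A` by `G_m` given by `v`. We assume that the arguments of
the theta functions are not in the divisor of `θ`. So we get all 1-motives over `A`, up to isogeny.

The motivic Galois group of `M` is the Mumford-Tate group `MT(M)` of the mixed Hodge structure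
`H_1(M)` (Brylinski, André): the smallest algebraic group over `ℚ` which contains the image of the
Deligne torus, which acts on the subspaces `I^{p,q}` of `H_1(M, ℂ)` given by Deligne's splitting.
The conjecture says that the comparison isomorphism is a generic point, over `ℚ̄`, of its torsor under
the motivic Galois group of `M`. A consequence is that every algebraic group `G ⊆ GL(H_B(M))` over
`ℚ`, with a torsor over `ℚ̄` which contains the comparison isomorphism, contains the group `MT(M)` (in
the terminology of André: `Ω^And = Ω^dRB`, for `M` and for all motives in the tensor category generated
by `M`). We prove this if the abelian part of `M` is of rank two over a CM field, or given by such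
abelian varieties in the following sense.

**Rank two** (`RankTwo`). The abelian variety `D` is of rank two if the centre of `End(D) ⊗ ℚ` is a CM
field `K`, generated by an element `z` with `z̄ = -z`, and if the algebra `B` of the endomorphisms of the
rational vector space `H_1(D, ℚ)` which commute with `End(D)` has *degree two* over `K`: `B` is the
matrix algebra `M_2(K)` or a division algebra of dimension `4` over `K`. For example, `D` is simple,
`End(D) ⊗ ℚ = K` and `dim D = [K : ℚ]`, or `D` is a power of such an abelian variety. Let `K⁺` be the
maximal totally real subfield, and `K⁻` the space of the `x ∈ K` with `x̄ = -x`. Let `S` be a set of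
representatives, modulo `a ↦ -a`, of the real numbers `a` such that both `i a` and `- i a` are
eigenvalues of `z` on the tangent space of `D`: so `S` is the set of the places of `K⁺` at which the
unitary group of `B` is `U(1, 1)`; at the other places it is `U(2)`. We assume that `S` is not empty, and
that one of the following conditions is true.

* (`Primitive`) `S` does not come from a proper subfield of `K⁺`: if `C ⊆ K⁺` is a subfield, such that
  it depends only on the restriction of a place to `C` whether the place is in `S`, then `C = K⁺`;
* (`Coprime`) the number of elements of `S` is prime to `[K⁺ : ℚ]`. (This implies the first condition.)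
  For example, `S` has one element; or `[K⁺ : ℚ]` is a prime number, and `S` is arbitrary (it is known
  that `S` is neither empty nor the set of all places if `D` is simple).

**Theorem.** Let `M` be any 1-motive over `ℚ̄` with the abelian part `A`, and let `G` be an algebraic
group over `ℚ` with a torsor over `ℚ̄` which contains the comparison isomorphism of `M`. Let `A` be a
direct factor of an abelian variety `C`.

1. Let `C` be of rank two (for example `C = D ^ k` and `A` isogenous to `D ^ j`). Then `G` contains the
   derived group of `MT(M)`: it contains `exp (t Z)` for all complex numbers `t` and all `Z` in the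
   derived algebra of the Lie algebra of `MT(M)` (`mtLie`: the smallest Lie algebra of rational matrices
   whose complex span contains the Lie algebra of the Deligne torus). If moreover `K⁻` is simple
   (`SimpleCentre`: all relations `∑ n_j x_j = 0` between the conjugates `x_j` of an element `x ≠ 0` of
   `K⁻` hold for all elements of `K⁻`), or if `K` is a quartic field which contains no imaginary
   quadratic field (`QuarticCentre`), then `G` contains `MT(M)`.
2. Let `D` be a direct factor of `C` of rank two, and let the part of the Hodge group of `C` which acts
   trivially on `H_1(D)` act trivially on the Mumford-Tate domain of `A` (`DomainOf`). Then `G` contains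
   the derived group of `MT(M)`. If moreover the centre of the Lie algebra of the Hodge group of `C` is
   rigid (`RigidCentre`), then `G` contains `MT(M)`.

There is no condition on the points; the deficient 1-motives of Ribet and Jacquinot are included. The
group `G` is not assumed to be reductive or connected.

**Examples.** (1) Let `D` be an abelian fourfold such that `End(D) ⊗ ℚ = K` is a quartic CM field which
contains no imaginary quadratic field (then `S` has one element), or of dimension six, such that
`End(D) ⊗ ℚ = K` is a sextic CM field which contains no imaginary quadratic field, or of dimension `2 p`,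
`p` a prime number, such that `End(D) ⊗ ℚ = K` is a CM field of degree `2 p` and `K⁻` is simple. Then
`MT(M) ⊆ G` for *all* 1-motives `M` whose abelian part is isogenous to a power of `D`. For example let `P`
be a point of infinite order in `D(ℚ̄)`, `M = [ℤ → D]`: the Mumford-Tate group is the semidirect product
of `MT(D)` and `H_1(D, ℚ)`.

(2) If `K` is a quartic field which contains two imaginary quadratic fields, one can take `C = D ^ k × E₁ ^
m × E₂ ^ m`, where `E₁` and `E₂` are elliptic curves with complex multiplication by these fields; the
centre is rigid. So `MT(M) ⊆ G` for all 1-motives `M` whose abelian part is isogenous to `D ^ a × E₁ ^ b ×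
E₂ ^ c`, in particular for all 1-motives over powers of `D`. Hence the theorem is true for all 1-motives
whose abelian part is a power of an abelian fourfold `D` with `End(D) ⊗ ℚ` a quartic CM field. More
generally `C` can be the product of `D` and of abelian varieties with complex multiplication.

## What is new

The theorem of `OneMotivesMumfordTate` (MP_5d33ca_ag) gives `MT(M) ⊆ G` if the Lie algebra of the Hodge
group of `A` (or of a larger abelian variety) has no proper subalgebra which is closed under replicas and
acts semisimply with the same commutant. For the abelian varieties here the centre of the Lie algebra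
of the Hodge group is not zero, and such subalgebras are not excluded by general facts: one has to use
the distribution of the definite and indefinite places. `ModularOneMotives` (in this folder) treats
abelian varieties whose homology is a sum of planes of elliptic curves or planes symmetric for the
polarization; here the planes are isotropic. `UnitaryOneMotives` (MP_5d33ca_ag) assumes that the numbers
`± i a`, `a ∈ S`, are separated by the elements of `K` in all `ℚ`-algebras `B₁ ⊆ B` with `B = B₁ K`, or
that `B` is a division algebra of prime degree and the different elements of `S` are separated. In degree
two `B` is the tensor product of `K` and of a quaternion algebra `B₁` over `K⁺`, so that the first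
condition is never true; nothing was known about these 1-motives for `B = M_2(K)`, not even over
fourfolds. The abelian varieties of rank two are treated in `RankTwoUnitary` (MP_bf54cf_ag: de
Rham-Betti classes on powers) and `RankTwoMotives` (MP_57341d_ag: pure motives); the 1-motives with
their points and unipotent radicals are new here.

Nothing is assumed about periods: `AbVar` and `AbVarG` are descriptions of abelian varieties over `ℚ̄`
by theta functions (see `Pool/Agent/Y102/AVDefs.lean`), and the transcendence theorems which are used,
the theorem of Schneider and Lang and the transcendence of `π`, are proved in this repository.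

## Proof

Let `𝔤` be the Lie algebra of the Hodge group of `C`, and `𝔮 ⊆ 𝔤` the Lie algebra of the elements whose
restriction to `H_1(A, ℚ)` is in the image of the Lie algebra of `G`, up to the weights. By the theorems
of Schneider and Lang and of Wüstholz `𝔮` is *full*: it acts semisimply on `H_1(C, ℚ)`, with the same
commutant as `𝔤`. The restrictions of a full subalgebra to a factor `D` are a full subalgebra for `D`
(`U400.RF.rs_full`). Let `D` be of rank two, and let `𝔮` be full for `D`.

1. For `X`, `Y` in `[𝔮, 𝔮]` the element `XY + YX` is in `K⁺`, since at one indefinite place
   `[𝔮, 𝔮]` acts by `2 × 2` matrices with trace zero. By an identity for Lie brackets and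
   anticommutators `[𝔮, 𝔮]` is stable under multiplication by these elements. Let `C` be the field of
   the elements `c ∈ K⁺` such that `c [𝔮, 𝔮] ⊆ [𝔮, 𝔮]`. At a place in `S` the square `X ^ 2` is
   positive for some `X ∈ [𝔮, 𝔮]`; at the places outside of `S` it is never positive. So `S` comes from
   the subfield `C`, and `C = K⁺`; hence `[𝔮, 𝔮]` is the Lie algebra `su(B)` (`U400.RF.H2_UU_le`). In
   particular `[𝔮, 𝔮] = [𝔤, 𝔤]` (`U400.RF.der_eq`).
2. So the complex structure of `H_1(A, ℝ)` is the restriction of an element of `(𝔷 + [𝔮, 𝔮]) ⊗ ℝ`, `𝔷`
   the centre of `𝔤` (`OU.ZZ_J`). The Lie algebra of the rational matrices which normalize the Lie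
   algebra of the elements of the Lie algebra of `G` which act on `Gr^W` by weights, and whose action on
   `H_1(A, ℚ)` is the restriction of an element of `𝔷 + [𝔮, 𝔮]`, up to the weight, contains over `ℂ` the
   Lie algebra of the Deligne torus (`OU.exists_LL`), and its derived algebra is in the Lie algebra of `G`
   (`OU.LL_gQ`).
3. The centre of `𝔤` is rigid if the relations between the eigenvalues of the elements `x ≠ 0` of `K⁻`
   are satisfied by all elements of `K⁻` (`U400.RF.rigid`). One has to show that `0` is not a generating
   element of the centre. Otherwise `[𝔤, 𝔤]` would have the same commutant as `𝔤`. The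
   determinant of the two-dimensional space at an indefinite place is invariant under `[𝔤, 𝔤]`; it
   would be given by endomorphisms of `D` and commute with `z`, in contradiction to the sign in
   `det(z u, v) = det(u, z v)` (`U400.RF.exists_trace`). For quartic fields see `U400.RT.quartic_dom`.
   If the centre is rigid, then it is contained in `𝔮` (replicas), and the complex structure of the
   1-motive is in the complex span of the Lie algebra of `G` (`OU.detJ_of`, `hodge_stab6`).
-/

open Module Matrix Pool.Agent.Y102 Pool.Agent.R917.OM Pool.Agent.N208.OneM Pool.Agent.U400.RF.One

noncomputable section

namespace Pool.Agent.Results.MP_ae0f86_nt.RankTwoOneMotives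

/-- **Theorem.** Let `M` be a 1-motive over `ℚ̄` with the abelian part `A`, and let `G` be an algebraic
group over `ℚ` with a torsor over `ℚ̄` which contains the comparison isomorphism of `M`. Let `A` be a
direct factor of an abelian variety `C`.

1. Let `C` be of rank two over the CM field `K`, with a primitive set of indefinite places, or such that
   the number of the indefinite places is prime to `[K⁺ : ℚ]`. Then `G` contains `exp (t Z)` for all
   complex numbers `t` and all `Z` in the derived algebra of the Lie algebra of the Mumford-Tate group
   of `M`. If `K⁻` is simple, or if `K` is a quartic field which contains no imaginary quadratic field,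
   then `G` contains the Mumford-Tate group of `M`.
2. Let `D` be a direct factor of `C` which satisfies the conditions of 1, and let the part of the Hodge
   group of `C` which acts trivially on the homology of `D` act trivially on the Mumford-Tate domain of
   `A`. Then the first conclusion is true. If the centre of the Lie algebra of the Hodge group of `C` is
   rigid, then `G` contains the Mumford-Tate group of `M`. -/
theorem result (g n s : ℕ) (A : AbVarG g) (u : Fin n → Fin g → ℂ) (v : Fin s → Fin g → ℂ)
    (ℓ : Fin n → Fin s → ℂ) (hM : IsOneMotive A u v ℓ)
    (G : Subgroup (GL (Betti g n s) ℂ)) (hG : IsAlgebraicSubgroup G)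
    (hP : ContainsPeriods A u v ℓ G) (g' : ℕ) (C : AbVar g') (f : A.toAbVar.H1 →ₗ[ℚ] C.H1)
    (p : C.H1 →ₗ[ℚ] A.toAbVar.H1) (hF : IsFactor A.toAbVar C f p) :
    (∀ (z : EndQ C) (S : Finset ℝ), RankTwo C z S →
      (∀ Z ∈ derived (mtLie A u v ℓ), ∀ t : ℂ, IsIn G (NormedSpace.exp (t • cplx Z))) ∧
      (SimpleCentre C z ∨ QuarticCentre C z → mumfordTate A u v ℓ ≤ G)) ∧
    ∀ (g'' : ℕ) (D : AbVar g'') (f' : D.H1 →ₗ[ℚ] C.H1) (p' : C.H1 →ₗ[ℚ] D.H1) (z : EndQ D)
      (S : Finset ℝ), IsFactor D C f' p' → RankTwo D z S → DomainOf A.toAbVar C f p D f' p' →
      (∀ Z ∈ derived (mtLie A u v ℓ), ∀ t : ℂ, IsIn G (NormedSpace.exp (t • cplx Z))) ∧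
      (RigidCentre C → mumfordTate A u v ℓ ≤ G) :=
  Pool.Agent.U400.RF.One.main hM hG hP g' C f p hF

end Pool.Agent.Results.MP_ae0f86_nt.RankTwoOneMotives
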